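import Mathlib.Combinatorics.SimpleGraph.Finite
import Mathlib.Algebra.Polynomial.Eval.Defs
import Mathlib.Algebra.Polynomial.Eval.Degree
import Mathlib.Logic.Equiv.Fin.Rotate
import Mathlib.Logic.Equiv.Option
import Mathlib.Algebra.BigOperators.Fin
import Mathlib.Tactic

/-!
# MP_f3603a: the vertex-deletion identity for `ν` on Eulerian graphs
-/

namespace Pool.Agent.Results.MP_f3603a_co.VertexDeletion

open Finset Polynomial

open scoped Classical

set_option linter.unusedSectionVars false

noncomputable section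

variable {V : Type*} [Fintype V]

/-- `D` is an orientation of the graph `G`: arcs are edges of `G`, and every edge of `G`
is directed in exactly one way. -/
def IsOrientation (D : V → V → Prop) (G : SimpleGraph V) : Prop :=
  (∀ u v, D u v → G.Adj u v) ∧ (∀ u v, G.Adj u v → (D u v ∨ D v u)) ∧
    ∀ u v, D u v → ¬ D v u

/-- The number of `D`-descents of a labelling `σ` of the vertices: the number of arcs
`u → v` with `σ v < σ u`. -/
def des (D : V → V → Prop) {n : ℕ} (σ : V ≃ Fin n) : ℕ :=
  ((univ : Finset (V × V)).filter fun p => D p.1 p.2 ∧ σ p.2 < σ p.1).card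

/-- The Eulerian polynomial of the digraph `D`: the sum of `t ^ des_D(σ)` over all
bijections `σ` from the vertex set to `{1, …, n}`. -/
def eulerianPoly (D : V → V → Prop) : ℤ[X] :=
  ∑ σ : V ≃ Fin (Fintype.card V), X ^ des D σ

/-- A concrete orientation of `G`: edges point upwards in an enumeration of `V`. -/
def stdOrientation (G : SimpleGraph V) (u v : V) : Prop :=
  G.Adj u v ∧ Fintype.equivFin V u < Fintype.equivFin V v

/-- `ν(G) = |A_D(-1)|` for an orientation `D` of `G` (any orientation gives the same value,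
see `nu_eq`). -/
def nu (G : SimpleGraph V) : ℕ :=
  ((eulerianPoly (stdOrientation G)).eval (-1)).natAbs

theorem stdOrientation_isOrientation (G : SimpleGraph V) :
    IsOrientation (stdOrientation G) G := by
  refine ⟨fun u v h => h.1, fun u v h => ?_, fun u v h h' => ?_⟩
  · have hne : Fintype.equivFin V u ≠ Fintype.equivFin V v := fun he =>
      h.ne ((Fintype.equivFin V).injective he)
    rcases lt_or_gt_of_ne hne with h1 | h1
    · exact Or.inl ⟨h, h1⟩
    · exact Or.inr ⟨h.symm, h1⟩
  · exact absurd h.2 (not_lt.mpr (le_of_lt h'.2))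

/-- the contribution of an ordered pair to the sign -/
def term (D : V → V → Prop) {n : ℕ} (σ : V ≃ Fin n) (a b : V) : ℤ :=
  if D a b ∧ σ b < σ a then -1 else 1

theorem natAbs_prod {ι : Type*} (s : Finset ι) (f : ι → ℤ) :
    (∏ i ∈ s, f i).natAbs = ∏ i ∈ s, (f i).natAbs :=
  Finset.prod_hom_rel (r := fun (a : ℤ) (b : ℕ) => a.natAbs = b) rfl
    fun i a b h => by rw [Int.natAbs_mul, h]

/-- the sign of a labelling -/
def sgn (D : V → V → Prop) {n : ℕ} (σ : V ≃ Fin n) : ℤ := ∏ a, ∏ b, term D σ a b

theorem neg_one_pow_des (D : V → V → Prop) {n : ℕ} (σ : V ≃ Fin n) :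
    (-1 : ℤ) ^ des D σ = sgn D σ := by
  unfold des sgn term
  rw [← Finset.prod_const, Finset.prod_filter, Fintype.prod_prod_type]

/-- the alternating sum over labellings by `Fin n` -/
def altSum (D : V → V → Prop) (n : ℕ) : ℤ := ∑ σ : V ≃ Fin n, sgn D σ

theorem eval_eulerianPoly (D : V → V → Prop) :
    (eulerianPoly D).eval (-1) = altSum D (Fintype.card V) := by
  unfold eulerianPoly altSum
  rw [Polynomial.eval_finsetSum]
  refine Finset.sum_congr rfl fun σ _ => ?_
  rw [Polynomial.eval_pow, Polynomial.eval_X, neg_one_pow_des]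

theorem sgn_sq (D : V → V → Prop) {n : ℕ} (σ : V ≃ Fin n) : sgn D σ * sgn D σ = 1 := by
  rw [← neg_one_pow_des, ← pow_add]
  exact Even.neg_one_pow ⟨_, rfl⟩

/-- Two orientations of the same graph have the same signs up to a global sign. -/
theorem sgn_mul_sgn {D D' : V → V → Prop} {G : SimpleGraph V} (h : IsOrientation D G)
    (h' : IsOrientation D' G) {n : ℕ} (σ : V ≃ Fin n) :
    sgn D σ * sgn D' σ = ∏ a, ∏ b, if D a b ∧ D' b a then (-1 : ℤ) else 1 := by
  have key : ∀ a b, term D σ a b * term D' σ a b =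
      (if (D a b ∧ D' b a) ∧ σ b < σ a then (-1 : ℤ) else 1) *
      (if (D' a b ∧ D b a) ∧ σ b < σ a then (-1 : ℤ) else 1) := by
    intro a b
    unfold term
    by_cases hlt : σ b < σ a
    · by_cases hD : D a b
      · have hnD : ¬ D b a := h.2.2 a b hD
        rcases h'.2.1 a b (h.1 a b hD) with h1 | h1
        · have h2 : ¬ D' b a := h'.2.2 a b h1
          simp [hD, hnD, h1, h2, hlt]
        · have h2 : ¬ D' a b := h'.2.2 b a h1
          simp [hD, hnD, h1, h2, hlt]
      · by_cases hD' : D' a b
        · have hnD' : ¬ D' b a := h'.2.2 a b hD'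
          rcases h.2.1 a b (h'.1 a b hD') with h1 | h1
          · exact absurd h1 hD
          · simp [hD, hD', hnD', h1, hlt]
        · simp [hD, hD']
    · simp [hlt]
  unfold sgn
  rw [← Finset.prod_mul_distrib]
  simp_rw [← Finset.prod_mul_distrib, key, Finset.prod_mul_distrib]
  have swap : (∏ a, ∏ b, if (D' a b ∧ D b a) ∧ σ b < σ a then (-1 : ℤ) else 1) =
      ∏ a, ∏ b, if (D' b a ∧ D a b) ∧ σ a < σ b then (-1 : ℤ) else 1 := by
    rw [Finset.prod_comm]
  rw [swap, ← Finset.prod_mul_distrib]
  simp_rw [← Finset.prod_mul_distrib]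
  refine Finset.prod_congr rfl fun a _ => Finset.prod_congr rfl fun b _ => ?_
  by_cases hD : D a b ∧ D' b a
  · have hne : a ≠ b := by
      rintro rfl
      exact h.2.2 a a hD.1 hD.1
    have hne' : σ a ≠ σ b := fun he => hne (σ.injective he)
    rcases lt_or_gt_of_ne hne' with h1 | h1
    · simp [hD.1, hD.2, h1, not_lt.mpr (le_of_lt h1)]
    · simp [hD.1, hD.2, h1, not_lt.mpr (le_of_lt h1)]
  · have hD' : ¬ (D' b a ∧ D a b) := fun h => hD ⟨h.2, h.1⟩
    simp [hD, hD']

theorem altSum_eq_or {D D' : V → V → Prop} {G : SimpleGraph V} (h : IsOrientation D G)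
    (h' : IsOrientation D' G) (n : ℕ) : (altSum D n).natAbs = (altSum D' n).natAbs := by
  set c : ℤ := ∏ a, ∏ b, if D a b ∧ D' b a then (-1 : ℤ) else 1 with hc
  have hcu : c.natAbs = 1 := by
    rw [hc, natAbs_prod]
    refine Finset.prod_eq_one fun a _ => ?_
    rw [natAbs_prod]
    refine Finset.prod_eq_one fun b _ => ?_
    split_ifs <;> rfl
  have : altSum D n = c * altSum D' n := by
    unfold altSum
    rw [Finset.mul_sum]
    refine Finset.sum_congr rfl fun σ _ => ?_
    have h1 := sgn_mul_sgn h h' σ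
    rw [← hc] at h1
    calc sgn D σ = sgn D σ * (sgn D' σ * sgn D' σ) := by rw [sgn_sq, mul_one]
      _ = c * sgn D' σ := by rw [← mul_assoc, h1]
  rw [this, Int.natAbs_mul, hcu, one_mul]

/-- Well-definedness (Kalai): `ν(G)` may be computed from any orientation. -/
theorem nu_eq {D : V → V → Prop} {G : SimpleGraph V} (h : IsOrientation D G) :
    ((eulerianPoly D).eval (-1)).natAbs = nu G := by
  unfold nu
  rw [eval_eulerianPoly, eval_eulerianPoly]
  exact altSum_eq_or h (stdOrientation_isOrientation G) _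

/-- Splitting the sign at a vertex. -/
theorem sgn_split (D : V → V → Prop) (hirr : ∀ v, ¬ D v v) {n : ℕ} (σ : V ≃ Fin n) (w : V) :
    sgn D σ = (∏ b : {b // b ≠ w}, term D σ w b) * ((∏ a : {a // a ≠ w}, term D σ a w) *
      ∏ a : {a // a ≠ w}, ∏ b : {b // b ≠ w}, term D σ a b) := by
  unfold sgn
  rw [Fintype.prod_eq_mul_prod_subtype_ne _ w]
  have h0 : ∏ b, term D σ w b = ∏ b : {b // b ≠ w}, term D σ w b := by
    rw [Fintype.prod_eq_mul_prod_subtype_ne _ w]
    simp [term, hirr w]
  have h1 : ∏ a : {a // a ≠ w}, ∏ b, term D σ a b = (∏ a : {a // a ≠ w}, term D σ a w) *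
      ∏ a : {a // a ≠ w}, ∏ b : {b // b ≠ w}, term D σ a b := by
    rw [← Finset.prod_mul_distrib]
    refine Finset.prod_congr rfl fun a _ => ?_
    rw [Fintype.prod_eq_mul_prod_subtype_ne _ w]
  rw [h0, h1]

/-- The sign attached to the arcs leaving `w`. -/
def outSign (D : V → V → Prop) (w : V) : ℤ := ∏ b : {b // b ≠ w}, if D w b then -1 else 1

/-- The sign attached to the arcs entering `w`. -/
def inSign (D : V → V → Prop) (w : V) : ℤ := ∏ a : {a // a ≠ w}, if D a w then -1 else 1

theorem outSign_eq_inSign {D : V → V → Prop} {G : SimpleGraph V} (h : IsOrientation D G)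
    (w : V) (hw : Even (G.degree w)) : outSign D w = inSign D w := by
  have h1 : outSign D w * inSign D w = 1 := by
    unfold outSign inSign
    rw [← Finset.prod_mul_distrib]
    have h2 : ∀ b : {b // b ≠ w}, ((if D w b then -1 else 1) * (if D b w then -1 else 1) : ℤ) =
        if G.Adj w b then -1 else 1 := by
      intro b
      by_cases hG : G.Adj w b
      · rcases h.2.1 w b hG with h3 | h3
        · have h4 := h.2.2 _ _ h3
          simp [hG, h3, h4]
        · have h4 := h.2.2 _ _ h3
          simp [hG, h3, h4]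
      · have h3 : ¬ D w b := fun h' => hG (h.1 _ _ h')
        have h4 : ¬ D b w := fun h' => hG (h.1 _ _ h').symm
        simp [hG, h3, h4]
    simp_rw [h2]
    have h5 : (∏ b : {b // b ≠ w}, if G.Adj w b then (-1 : ℤ) else 1) =
        ∏ b, if G.Adj w b then (-1 : ℤ) else 1 := by
      rw [Fintype.prod_eq_mul_prod_subtype_ne _ w]
      simp
    rw [h5, ← Finset.prod_filter, Finset.prod_const]
    have h6 : (univ.filter fun b => G.Adj w b).card = G.degree w := by
      rw [← SimpleGraph.card_neighborFinset_eq_degree]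
      congr 1
      ext b
      simp
    rw [h6]
    exact hw.neg_one_pow
  have h2 : inSign D w * inSign D w = 1 := by
    unfold inSign
    rw [← Finset.prod_mul_distrib]
    refine Finset.prod_eq_one fun b _ => ?_
    split_ifs <;> rfl
  calc outSign D w = outSign D w * (inSign D w * inSign D w) := by rw [h2, mul_one]
    _ = inSign D w := by rw [← mul_assoc, h1, one_mul]

/-- The sign of a labelling in which `w` is on top. -/
theorem sgn_top {D : V → V → Prop} (hirr : ∀ v, ¬ D v v) {m : ℕ}
    (σ : V ≃ Fin (m + 1)) (w : V) (hw : σ w = Fin.last m) :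
    sgn D σ = outSign D w * ∏ a : {a // a ≠ w}, ∏ b : {b // b ≠ w}, term D σ a b := by
  rw [sgn_split D hirr σ w]
  have h1 : ∏ b : {b // b ≠ w}, term D σ w b = outSign D w := by
    unfold outSign
    refine Finset.prod_congr rfl fun b _ => ?_
    have : σ b < σ w := by
      rw [hw]
      refine lt_of_le_of_ne (Fin.le_last _) fun he => b.2 (σ.injective (he.trans hw.symm))
    simp [term, this]
  have h2 : ∏ a : {a // a ≠ w}, term D σ a w = 1 := by
    refine Finset.prod_eq_one fun a _ => ?_
    have : ¬ σ w < σ a := by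
      rw [hw]
      exact not_lt.mpr (Fin.le_last _)
    simp [term, this]
  rw [h1, h2, one_mul]

/-- The sign of a labelling in which `w` is at the bottom. -/
theorem sgn_bot {D : V → V → Prop} (hirr : ∀ v, ¬ D v v) {m : ℕ}
    (σ : V ≃ Fin (m + 1)) (w : V) (hw : σ w = 0) :
    sgn D σ = inSign D w * ∏ a : {a // a ≠ w}, ∏ b : {b // b ≠ w}, term D σ a b := by
  rw [sgn_split D hirr σ w]
  have h1 : ∏ b : {b // b ≠ w}, term D σ w b = 1 := by
    refine Finset.prod_eq_one fun b _ => ?_
    have : ¬ σ b < σ w := by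
      rw [hw]
      exact not_lt.mpr (Fin.zero_le _)
    simp [term, this]
  have h2 : ∏ a : {a // a ≠ w}, term D σ a w = inSign D w := by
    unfold inSign
    refine Finset.prod_congr rfl fun a _ => ?_
    have : σ w < σ a := by
      rw [hw]
      refine lt_of_le_of_ne (Fin.zero_le _) fun he => a.2 (σ.injective (he.symm.trans hw.symm))
    simp [term, this]
  rw [h1, h2, one_mul]

theorem finRotate_lt_iff {m : ℕ} {i j : Fin (m + 1)} (hi : i ≠ Fin.last m)
    (hj : j ≠ Fin.last m) : finRotate (m + 1) i < finRotate (m + 1) j ↔ i < j := by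
  rw [Fin.lt_def, Fin.lt_def, coe_finRotate_of_ne_last hi, coe_finRotate_of_ne_last hj]
  omega

/-- Rotating a labelling does not change its sign if all degrees are even. -/
theorem sgn_rotate {D : V → V → Prop} {G : SimpleGraph V} (h : IsOrientation D G)
    (hG : ∀ w, Even (G.degree w)) {m : ℕ} (σ : V ≃ Fin (m + 1)) :
    sgn D (σ.trans (finRotate (m + 1))) = sgn D σ := by
  have hirr : ∀ v, ¬ D v v := fun v hv => h.2.2 v v hv hv
  set w := σ.symm (Fin.last m) with hw
  have hσw : σ w = Fin.last m := by simp [hw]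
  have hσw' : (σ.trans (finRotate (m + 1))) w = 0 := by
    simp [hσw]
  rw [sgn_top hirr σ w hσw, sgn_bot hirr _ w hσw', outSign_eq_inSign h w (hG w)]
  congr 1
  refine Finset.prod_congr rfl fun a _ => Finset.prod_congr rfl fun b _ => ?_
  have ha : σ a ≠ Fin.last m := fun he => a.2 (σ.injective (he.trans hσw.symm))
  have hb : σ b ≠ Fin.last m := fun he => b.2 (σ.injective (he.trans hσw.symm))
  unfold term
  simp only [Equiv.trans_apply, finRotate_lt_iff hb ha]

/-- The sum of the signs of the labellings with `v` at position `k`. -/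
def posSum (D : V → V → Prop) (m : ℕ) (v : V) (k : Fin (m + 1)) : ℤ :=
  ∑ σ : V ≃ Fin (m + 1), if σ v = k then sgn D σ else 0

theorem altSum_eq_sum_posSum (D : V → V → Prop) (m : ℕ) (v : V) :
    altSum D (m + 1) = ∑ k : Fin (m + 1), posSum D m v k := by
  unfold altSum posSum
  rw [Finset.sum_comm]
  refine Finset.sum_congr rfl fun σ _ => ?_
  simp

theorem posSum_rotate {D : V → V → Prop} {G : SimpleGraph V} (h : IsOrientation D G)
    (hG : ∀ w, Even (G.degree w)) (m : ℕ) (v : V) (k : Fin (m + 1)) :
    posSum D m v (finRotate (m + 1) k) = posSum D m v k := by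
  unfold posSum
  symm
  refine Fintype.sum_equiv
    ⟨fun σ => σ.trans (finRotate (m + 1)), fun σ => σ.trans (finRotate (m + 1)).symm,
      fun σ => by ext; simp, fun σ => by ext; simp⟩ _ _ fun σ => ?_
  simp only [Equiv.coe_fn_mk, sgn_rotate h hG σ, Equiv.trans_apply,
    EmbeddingLike.apply_eq_iff_eq]

theorem posSum_eq {D : V → V → Prop} {G : SimpleGraph V} (h : IsOrientation D G)
    (hG : ∀ w, Even (G.degree w)) (m : ℕ) (v : V) (k : Fin (m + 1)) :
    posSum D m v k = posSum D m v 0 := by
  induction k using Fin.induction with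
  | zero => rfl
  | succ i ih =>
    rw [← ih]
    have : i.succ = finRotate (m + 1) i.castSucc := by
      ext
      rw [coe_finRotate_of_ne_last]
      · simp
      · exact (Fin.castSucc_lt_last i).ne
    rw [this]
    exact posSum_rotate h hG m v _

theorem altSum_eq_mul {D : V → V → Prop} {G : SimpleGraph V} (h : IsOrientation D G)
    (hG : ∀ w, Even (G.degree w)) (m : ℕ) (v : V) :
    altSum D (m + 1) = (m + 1 : ℕ) * posSum D m v (Fin.last m) := by
  rw [altSum_eq_sum_posSum D m v, Finset.sum_congr rfl fun k _ => posSum_eq h hG m v k,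
    posSum_eq h hG m v (Fin.last m)]
  simp

/-- The restriction of a digraph to the vertices different from `v`. -/
def restrict (D : V → V → Prop) (v : V) (a b : {w | w ≠ v}) : Prop := D a b

/-- Extend a labelling of `V - v` by putting `v` on top. -/
def extend (v : V) {m : ℕ} (e : {w | w ≠ v} ≃ Fin m) : V ≃ Fin (m + 1) :=
  ((Equiv.optionSubtypeNe v).symm.trans (Equiv.optionCongr e)).trans finSuccEquivLast.symm

theorem extend_self (v : V) {m : ℕ} (e : {w | w ≠ v} ≃ Fin m) :
    extend v e v = Fin.last m := by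
  simp [extend]

theorem extend_ne (v : V) {m : ℕ} (e : {w | w ≠ v} ≃ Fin m) (a : {w | w ≠ v}) :
    extend v e a = (e a).castSucc := by
  have ha : (a : V) ≠ v := a.2
  simp [extend, Equiv.optionSubtypeNe_symm_of_ne ha]

theorem extend_injective (v : V) {m : ℕ} :
    Function.Injective (extend v : ({w | w ≠ v} ≃ Fin m) → (V ≃ Fin (m + 1))) := by
  intro e e' he
  ext a
  have := congrArg (fun f : V ≃ Fin (m + 1) => f a) he
  simp only [extend_ne] at this
  exact congrArg Fin.val (Fin.castSucc_injective _ this)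

theorem exists_extend (v : V) {m : ℕ} (σ : V ≃ Fin (m + 1)) (hσ : σ v = Fin.last m) :
    ∃ e : {w | w ≠ v} ≃ Fin m, extend v e = σ := by
  have hne : ∀ a : {w | w ≠ v}, σ a ≠ Fin.last m := fun a he =>
    a.2 (σ.injective (he.trans hσ.symm))
  let f : {w | w ≠ v} → Fin m := fun a => (σ a).castPred (hne a)
  have hf : Function.Bijective f := by
    constructor
    · intro a b hab
      have : σ a = σ b := Fin.castPred_inj.mp hab
      exact Subtype.ext (σ.injective this)
    · intro k
      refine ⟨⟨σ.symm k.castSucc, ?_⟩, ?_⟩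
      · intro he
        have : σ v = k.castSucc := by rw [← he]; simp
        rw [hσ] at this
        exact (Fin.castSucc_lt_last k).ne this.symm
      · simp [f]
  refine ⟨Equiv.ofBijective f hf, ?_⟩
  ext a
  by_cases ha : a = v
  · subst ha
    rw [extend_self, hσ]
  · have := extend_ne v (Equiv.ofBijective f hf) ⟨a, ha⟩
    simp only at this
    rw [this]
    simp [f]

theorem sum_univ_congr {α : Type*} (i₁ i₂ : Fintype α) (f g : α → ℤ) (h : ∀ a, f a = g a) :
    @Finset.sum _ _ _ (@univ _ i₁) f = @Finset.sum _ _ _ (@univ _ i₂) g := by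
  have : i₁ = i₂ := Subsingleton.elim _ _
  subst this
  exact Finset.sum_congr rfl fun a _ => h a

theorem posSum_last {D : V → V → Prop} (hirr : ∀ v, ¬ D v v) (m : ℕ) (v : V) :
    posSum D m v (Fin.last m) = outSign D v * altSum (restrict D v) m := by
  unfold posSum
  rw [← Finset.sum_filter]
  have himg : (univ.filter fun σ : V ≃ Fin (m + 1) => σ v = Fin.last m) =
      (univ : Finset ({w | w ≠ v} ≃ Fin m)).map ⟨extend v, extend_injective v⟩ := by
    ext σ
    simp only [mem_filter, mem_univ, true_and, mem_map, Function.Embedding.coeFn_mk]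
    exact ⟨fun h => exists_extend v σ h, fun ⟨e, he⟩ => he ▸ extend_self v e⟩
  rw [himg, Finset.sum_map, altSum, Finset.mul_sum]
  refine sum_univ_congr _ _ _ _ fun e => ?_
  simp only [Function.Embedding.coeFn_mk]
  refine (sgn_top hirr (extend v e) v (extend_self v e)).trans ?_
  have hkey : ∏ a : {a // a ≠ v}, ∏ b : {b // b ≠ v}, term D (extend v e) a b =
      sgn (restrict D v) e := by
    unfold sgn
    refine Fintype.prod_equiv (Equiv.refl {a // a ≠ v}) _ _ fun a => ?_
    refine Fintype.prod_equiv (Equiv.refl {a // a ≠ v}) _ _ fun b => ?_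
    unfold term restrict
    have ha := extend_ne v e a
    have hb := extend_ne v e b
    rw [ha, hb]
    simp only [Fin.castSucc_lt_castSucc_iff]
    rfl
  rw [hkey]

theorem restrict_isOrientation {D : V → V → Prop} {G : SimpleGraph V}
    (h : IsOrientation D G) (v : V) :
    IsOrientation (restrict D v) (G.induce {w | w ≠ v}) :=
  ⟨fun _ _ hab => h.1 _ _ hab, fun _ _ hab => h.2.1 _ _ hab, fun _ _ hab => h.2.2 _ _ hab⟩

theorem outSign_natAbs (D : V → V → Prop) (w : V) : (outSign D w).natAbs = 1 := by
  unfold outSign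
  rw [natAbs_prod]
  refine Finset.prod_eq_one fun b _ => ?_
  split_ifs <;> rfl

/-- For an Eulerian graph, `ν(G) = n ν(G - v)` for every vertex `v`. -/
theorem nu_eq_card_mul (G : SimpleGraph V) (hG : ∀ w, Even (G.degree w)) (v : V) :
    nu G = Fintype.card V * nu (G.induce {w | w ≠ v}) := by
  obtain ⟨m, hm⟩ : ∃ m, Fintype.card V = m + 1 :=
    ⟨Fintype.card V - 1, (Nat.succ_pred_eq_of_pos (Fintype.card_pos_iff.mpr ⟨v⟩)).symm⟩
  have hm' : Fintype.card {w | w ≠ v} = m := by
    have h1 : Fintype.card {w | w ≠ v} = Fintype.card {w // w ≠ v} :=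
      Fintype.card_congr (Equiv.refl _)
    have h2 : Fintype.card (Option {w // w ≠ v}) = Fintype.card V :=
      Fintype.card_congr (Equiv.optionSubtypeNe v)
    rw [Fintype.card_option, hm] at h2
    omega
  have h := stdOrientation_isOrientation G
  have hirr : ∀ v, ¬ stdOrientation G v v := fun v hv => h.2.2 v v hv hv
  rw [nu, eval_eulerianPoly, hm, altSum_eq_mul h hG m v, posSum_last hirr, Int.natAbs_mul,
    Int.natAbs_mul, outSign_natAbs, one_mul, ← nu_eq (restrict_isOrientation h v),
    eval_eulerianPoly, hm', Int.natAbs_natCast]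

/-- The vertex-deletion identity: for every Eulerian graph `G` (all degrees even) with at
least one vertex, `ν(G) = ∑_v ν(G - v)`. -/
theorem result {V : Type*} [Fintype V] [Nonempty V] (G : SimpleGraph V)
    (hG : ∀ v, Even (G.degree v)) :
    nu G = ∑ v : V, nu (G.induce {w | w ≠ v}) := by
  have hpos : 0 < Fintype.card V := Fintype.card_pos
  have h : ∀ v, Fintype.card V * nu (G.induce {w | w ≠ v}) = nu G := fun v =>
    (nu_eq_card_mul G hG v).symm
  refine Nat.eq_of_mul_eq_mul_left hpos ?_
  rw [Finset.mul_sum, Finset.sum_congr rfl fun v _ => h v]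
  simp

end

end Pool.Agent.Results.MP_f3603a_co.VertexDeletion
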